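import Mathlib

/-!
# Erdős–Ulam ideals defined by modulus functions are simple density ideals (MP_54d8ad_lc)
-/

namespace Pool.Agent.Results.MP_54d8ad_lc.AllSimple

open Filter Set Topology NNReal

/-- The cardinality of `A ∩ {0, ..., n - 1}`. -/
noncomputable def cnt (A : Set ℕ) (n : ℕ) : ℕ := (A ∩ Set.Iio n).ncard

/-- The weights that define Erdős–Ulam ideals: nonnegative, with infinite sum, and with
`h n / ∑_{i ≤ n} h i → 0`. -/
def IsEUWeight (h : ℕ → ℝ) : Prop :=
  (∀ i, 0 ≤ h i) ∧ Tendsto (fun n => ∑ i ∈ Finset.range n, h i) atTop atTop ∧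
    Tendsto (fun n => h n / ∑ i ∈ Finset.range (n + 1), h i) atTop (𝓝 0)

/-- The Erdős–Ulam ideal of the weight `h`. -/
def EU (h : ℕ → ℝ) : Set (Set ℕ) :=
  {A | Tendsto (fun n => (∑ i ∈ Finset.range n, A.indicator h i) / ∑ i ∈ Finset.range n, h i)
    atTop (𝓝 0)}

/-- The class `H` of nondecreasing functions `g` with `g n → ∞` and not `n / g n → 0`. -/
def H : Set (ℕ → ℕ) :=
  {g | Monotone g ∧ Tendsto g atTop atTop ∧ ¬ Tendsto (fun n : ℕ => (n : ℝ) / (g n : ℝ)) atTop (𝓝 0)}

/-- The simple density ideal of `g`. -/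
def Z (g : ℕ → ℕ) : Set (Set ℕ) :=
  {A | Tendsto (fun n => (cnt A n : ℝ) / (g n : ℝ)) atTop (𝓝 0)}

/-- Modulus functions `[0, ∞) → [0, ∞)`; here increasing is understood in the weak sense, so that the
strictly increasing ones are included. -/
structure IsModulus (f : ℝ≥0 → ℝ≥0) : Prop where
  zero_iff : ∀ x, f x = 0 ↔ x = 0
  subadd : ∀ x y, f (x + y) ≤ f x + f y
  mono : Monotone f
  cont : ContinuousAt f 0

/-- The ideal `Z_g(f)`. -/
def Zf (g : ℕ → ℕ) (f : ℝ≥0 → ℝ≥0) : Set (Set ℕ) :=
  {A | Tendsto (fun n => ((f (cnt A n) : ℝ≥0) : ℝ) / ((f (g n) : ℝ≥0) : ℝ)) atTop (𝓝 0)}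

theorem cnt_le (A : Set ℕ) (n : ℕ) : cnt A n ≤ n := by
  have h1 : (A ∩ Set.Iio n).ncard ≤ (Set.Iio n).ncard :=
    Set.ncard_le_ncard inter_subset_right (Set.finite_Iio n)
  have h2 : (Set.Iio n).ncard = n := by
    rw [← Finset.coe_range, Set.ncard_coe_finset, Finset.card_range]
  unfold cnt
  omega

/-- A finite set meeting `x` consecutive blocks of length `r` after `N` whose weight is small with
respect to all initial segments. -/
theorem stage {h : ℕ → ℝ} (h0 : ∀ i, 0 ≤ h i) {δ : ℝ} (hδ : 0 < δ) {N r : ℕ}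
    (hr : 2 ≤ δ * r) (hN : ∀ a, N ≤ a → h a ≤ δ / 2 * ∑ i ∈ Finset.range (a + 1), h i) (x : ℕ) :
    ∃ B : Finset ℕ, B.card = x ∧ (∀ a ∈ B, N ≤ a ∧ a < N + x * r) ∧
      (∑ a ∈ B, h a ≤ δ / 2 * ∑ i ∈ Finset.range (N + x * r), h i) ∧
      ∀ n, ∑ a ∈ B with a < n, h a ≤ δ * ∑ i ∈ Finset.range n, h i := by
  classical
  have hr0 : 0 < r := by
    rcases Nat.eq_zero_or_pos r with h | h
    · subst h; norm_num at hr
    · exact h
  have hS0 : ∀ n, 0 ≤ ∑ i ∈ Finset.range n, h i := fun n => Finset.sum_nonneg fun i _ => h0 i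
  induction x with
  | zero =>
    refine ⟨∅, rfl, by simp, ?_, fun n => ?_⟩
    · simp only [Finset.sum_empty]
      exact mul_nonneg (by positivity) (hS0 _)
    · simp only [Finset.filter_empty, Finset.sum_empty]
      exact mul_nonneg hδ.le (hS0 _)
  | succ x ih =>
    obtain ⟨B, hBc, hB1, hB2, hB3⟩ := ih
    obtain ⟨a, ha, hmin⟩ := Finset.exists_min_image (Finset.Ico (N + x * r) (N + (x + 1) * r)) h
      ⟨N + x * r, Finset.mem_Ico.2 ⟨le_refl _, by
        have : (x + 1) * r = x * r + r := by ring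
        omega⟩⟩
    rw [Finset.mem_Ico] at ha
    have haB : a ∉ B := fun hh => by
      have := (hB1 a hh).2
      omega
    have hxr : (x + 1) * r = x * r + r := by ring
    -- the weight of the block
    have hblock : (r : ℝ) * h a ≤ ∑ i ∈ Finset.Ico (N + x * r) (N + (x + 1) * r), h i := by
      have h1 : ∑ i ∈ Finset.Ico (N + x * r) (N + (x + 1) * r), h a
          ≤ ∑ i ∈ Finset.Ico (N + x * r) (N + (x + 1) * r), h i := Finset.sum_le_sum hmin
      rw [Finset.sum_const, Nat.card_Ico, nsmul_eq_mul] at h1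
      rwa [show N + (x + 1) * r - (N + x * r) = r by omega] at h1
    have hsplit : ∑ i ∈ Finset.range (N + (x + 1) * r), h i =
        ∑ i ∈ Finset.range (N + x * r), h i +
          ∑ i ∈ Finset.Ico (N + x * r) (N + (x + 1) * r), h i := by
      rw [Finset.range_eq_Ico, Finset.range_eq_Ico]
      exact (Finset.sum_Ico_consecutive _ (Nat.zero_le _) (by omega)).symm
    have hha : h a ≤ δ / 2 * ∑ i ∈ Finset.Ico (N + x * r) (N + (x + 1) * r), h i := by
      have h2 : h a ≤ δ / 2 * (r * h a) := by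
        nlinarith [h0 a]
      exact h2.trans (mul_le_mul_of_nonneg_left hblock (by positivity))
    refine ⟨insert a B, ?_, ?_, ?_, ?_⟩
    · rw [Finset.card_insert_of_notMem haB, hBc]
    · intro b hb
      rcases Finset.mem_insert.1 hb with rfl | hb
      · exact ⟨by omega, ha.2⟩
      · have := hB1 b hb
        exact ⟨this.1, by omega⟩
    · rw [Finset.sum_insert haB, hsplit, mul_add]
      linarith
    · intro n
      by_cases hn : a < n
      · have h3 : ∑ b ∈ insert a B with b < n, h b ≤ ∑ b ∈ insert a B, h b :=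
          Finset.sum_le_sum_of_subset_of_nonneg (Finset.filter_subset _ _) fun i _ _ => h0 i
        rw [Finset.sum_insert haB] at h3
        have h4 : ∑ i ∈ Finset.range (N + x * r), h i ≤ ∑ i ∈ Finset.range n, h i :=
          Finset.sum_le_sum_of_subset_of_nonneg
            (Finset.range_subset_range.2 (by omega)) fun i _ _ => h0 i
        have h5 : ∑ i ∈ Finset.range (a + 1), h i ≤ ∑ i ∈ Finset.range n, h i :=
          Finset.sum_le_sum_of_subset_of_nonneg
            (Finset.range_subset_range.2 (by omega)) fun i _ _ => h0 i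
        have h6 := hN a (by omega)
        have h7 : δ / 2 * ∑ i ∈ Finset.range (a + 1), h i ≤ δ / 2 * ∑ i ∈ Finset.range n, h i :=
          mul_le_mul_of_nonneg_left h5 (by positivity)
        have h8 : δ / 2 * ∑ i ∈ Finset.range (N + x * r), h i ≤ δ / 2 * ∑ i ∈ Finset.range n, h i :=
          mul_le_mul_of_nonneg_left h4 (by positivity)
        linarith
      · rw [Finset.filter_insert, if_neg hn]
        exact hB3 n

/-- The key claim. -/
theorem claim {h : ℕ → ℝ} (hh : IsEUWeight h) {g : ℕ → ℕ} (hg : Tendsto g atTop atTop)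
    {F : ℕ → ℝ} (Fpos : ∀ n, 0 < n → 0 < F n) (Fmono : Monotone F)
    (heq : ∀ A ∈ EU h, Tendsto (fun n => F (cnt A n) / F (g n)) atTop (𝓝 0)) :
    ∀ ε : ℝ, 0 < ε → ∃ c : ℝ, 0 < c ∧ ∃ n0 : ℕ, ∀ n, n0 ≤ n → ∀ x, x ≤ n →
      ε * F (g n) ≤ F x → c * n ≤ x := by
  classical
  obtain ⟨h0, hS, hq⟩ := hh
  by_contra hcon
  push Not at hcon
  obtain ⟨ε, hε, hcon⟩ := hcon
  have hS0 : ∀ n, 0 ≤ ∑ i ∈ Finset.range n, h i := fun n => Finset.sum_nonneg fun i _ => h0 i
  -- the sets of the stages
  have hstage : ∀ k : ℕ, ∃ (B : Finset ℕ) (n : ℕ), k ≤ n ∧ 0 < F (g n) ∧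
      ε * F (g n) ≤ F B.card ∧ (∀ a ∈ B, k ≤ a ∧ a < n) ∧
      ∀ m, ∑ a ∈ B with a < m, h a ≤ (1 / 2 : ℝ) ^ k * ∑ i ∈ Finset.range m, h i := by
    intro k
    set δ : ℝ := (1 / 2 : ℝ) ^ k with hδdef
    have hδ : 0 < δ := by positivity
    have hev1 : ∀ᶠ a in atTop, h a ≤ δ / 2 * ∑ i ∈ Finset.range (a + 1), h i := by
      have h1 : ∀ᶠ a in atTop, h a / ∑ i ∈ Finset.range (a + 1), h i < δ / 2 :=
        hq.eventually (gt_mem_nhds (by positivity))
      have h2 : ∀ᶠ a in atTop, 0 < ∑ i ∈ Finset.range (a + 1), h i :=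
        (hS.comp (tendsto_add_atTop_nat 1)).eventually (eventually_gt_atTop 0)
      filter_upwards [h1, h2] with a ha ha2
      exact ((div_lt_iff₀ ha2).1 ha).le
    have hev2 : ∀ᶠ a in atTop, 0 < g a := hg.eventually (eventually_gt_atTop 0)
    obtain ⟨N, hN⟩ := eventually_atTop.1 ((hev1.and hev2).and (eventually_ge_atTop k))
    set r : ℕ := 2 ^ (k + 1) with hrdef
    have hr : 2 ≤ δ * r := by
      rw [hδdef, hrdef]
      push_cast
      rw [pow_succ, ← mul_assoc, ← mul_pow]
      norm_num
    obtain ⟨n, hn, x, hxn, hx1, hx2⟩ := hcon (1 / (2 * r)) (by positivity) (2 * N)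
    obtain ⟨B, hBc, hB1, -, hB3⟩ := stage h0 hδ hr (fun a ha => (hN a ha).1.1) x
    have hNle : N ≤ n := by omega
    refine ⟨B, n, (hN n hNle).2.trans (le_refl _), Fpos _ (hN n hNle).1.2, by rw [hBc]; exact hx1,
      fun a ha => ⟨((hN N (le_refl _)).2).trans (hB1 a ha).1, ?_⟩, hB3⟩
    have h3 := (hB1 a ha).2
    have h4 : 2 * (x * r) < n ∨ 2 * (x * r) = n := by
      left
      have hr0 : (0 : ℝ) < 2 * r := by positivity
      have : (x : ℝ) * (2 * r) < n := by
        rw [one_div, inv_mul_eq_div, lt_div_iff₀ hr0] at hx2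
        exact hx2
      have h5 : ((x * (2 * r) : ℕ) : ℝ) < (n : ℝ) := by push_cast; exact this
      have h6 := Nat.cast_lt.1 h5
      have h7 : x * (2 * r) = 2 * (x * r) := by ring
      omega
    omega
  choose B n hn1 hn2 hn3 hn4 hn5 using hstage
  set A : Set ℕ := {i | ∃ k, i ∈ B k} with hA
  -- `A` is not in `Z_g(f)`
  have hnot : ¬ Tendsto (fun m => F (cnt A m) / F (g m)) atTop (𝓝 0) := by
    intro ht
    have h1 : ∀ᶠ m in atTop, F (cnt A m) / F (g m) < ε := ht.eventually (gt_mem_nhds hε)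
    obtain ⟨M, hM⟩ := eventually_atTop.1 h1
    have h2 := hM (n M) (hn1 M)
    rw [div_lt_iff₀ (hn2 M)] at h2
    have h3 : (B M).card ≤ cnt A (n M) := by
      unfold cnt
      rw [← Set.ncard_coe_finset]
      refine Set.ncard_le_ncard ?_ ((Set.finite_Iio _).subset inter_subset_right)
      intro a ha
      exact ⟨⟨M, ha⟩, (hn4 M a ha).2⟩
    have h4 := Fmono h3
    have h5 := hn3 M
    linarith
  refine hnot (heq A ?_)
  -- `A` is in the Erdős–Ulam ideal
  have hbound : ∀ K m, ∑ i ∈ Finset.range m, A.indicator h i ≤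
      (∑ k ∈ Finset.range K, ∑ a ∈ B k, h a) +
        2 * (1 / 2 : ℝ) ^ K * ∑ i ∈ Finset.range m, h i := by
    intro K m
    have h1 : ∑ i ∈ Finset.range m, A.indicator h i ≤
        ∑ k ∈ Finset.range m, ∑ a ∈ B k with a < m, h a := by
      have h2 : ∀ i ∈ Finset.range m, A.indicator h i ≤
          ∑ k ∈ Finset.range m, if i ∈ B k then h i else 0 := by
        intro i hi
        by_cases hiA : i ∈ A
        · rw [Set.indicator_of_mem hiA]
          obtain ⟨k, hk⟩ := hiA
          have hkm : k ∈ Finset.range m := by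
            have := (hn4 k i hk).1
            rw [Finset.mem_range] at hi ⊢
            omega
          have h3 := Finset.single_le_sum (f := fun k => if i ∈ B k then h i else 0)
            (fun j _ => by
              show 0 ≤ if i ∈ B j then h i else 0
              split_ifs
              · exact h0 i
              · exact le_refl _) hkm
          have h4 : (if i ∈ B k then h i else 0) = h i := if_pos hk
          simp only [h4] at h3
          exact h3
        · rw [Set.indicator_of_notMem hiA]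
          refine Finset.sum_nonneg fun j _ => ?_
          split_ifs
          · exact h0 i
          · exact le_refl _
      refine (Finset.sum_le_sum h2).trans ?_
      rw [Finset.sum_comm]
      refine Finset.sum_le_sum fun k _ => ?_
      rw [← Finset.sum_filter]
      refine Finset.sum_le_sum_of_subset_of_nonneg ?_ fun i _ _ => h0 i
      intro i hi
      rw [Finset.mem_filter, Finset.mem_range] at hi
      exact Finset.mem_filter.2 ⟨hi.2, hi.1⟩
    refine h1.trans ?_
    have h2 : ∀ k ∈ Finset.range m, ∑ a ∈ B k with a < m, h a ≤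
        (if k < K then ∑ a ∈ B k, h a else 0) +
          (if K ≤ k then (1 / 2 : ℝ) ^ k else 0) * ∑ i ∈ Finset.range m, h i := by
      intro k _
      by_cases hk : k < K
      · rw [if_pos hk, if_neg (by omega), zero_mul, add_zero]
        exact Finset.sum_le_sum_of_subset_of_nonneg (Finset.filter_subset _ _) fun i _ _ => h0 i
      · rw [if_neg hk, if_pos (by omega), zero_add]
        exact hn5 k m
    refine (Finset.sum_le_sum h2).trans ?_
    rw [Finset.sum_add_distrib]
    refine add_le_add ?_ ?_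
    · rw [← Finset.sum_filter]
      refine Finset.sum_le_sum_of_subset_of_nonneg ?_ fun i _ _ =>
        Finset.sum_nonneg fun a _ => h0 a
      intro i hi
      rw [Finset.mem_filter] at hi
      exact Finset.mem_range.2 hi.2
    · rw [← Finset.sum_mul]
      refine mul_le_mul_of_nonneg_right ?_ (hS0 _)
      rw [← Finset.sum_filter]
      have h3 : ∑ k ∈ Finset.range m with K ≤ k, (1 / 2 : ℝ) ^ k ≤
          ∑ k ∈ Finset.range m, (1 / 2 : ℝ) ^ (K + k) := by
        have h4 : (Finset.range m).filter (fun k => K ≤ k) ⊆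
            (Finset.range m).image (fun k => K + k) := by
          intro k hk
          rw [Finset.mem_filter, Finset.mem_range] at hk
          exact Finset.mem_image.2 ⟨k - K, Finset.mem_range.2 (by omega), by omega⟩
        refine (Finset.sum_le_sum_of_subset_of_nonneg h4 fun i _ _ => by positivity).trans ?_
        rw [Finset.sum_image (fun a _ b _ hab => by
          have : K + a = K + b := hab
          omega)]
      refine h3.trans ?_
      simp_rw [pow_add]
      rw [← Finset.mul_sum, mul_comm (2 : ℝ)]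
      refine mul_le_mul_of_nonneg_left ?_ (by positivity)
      exact sum_geometric_two_le m
  show Tendsto _ atTop (𝓝 0)
  rw [Metric.tendsto_atTop]
  intro η hη
  obtain ⟨K, hK⟩ := exists_pow_lt_of_lt_one (show (0 : ℝ) < η / 4 by positivity)
    (show (1 / 2 : ℝ) < 1 by norm_num)
  set C : ℝ := ∑ k ∈ Finset.range K, ∑ a ∈ B k, h a with hC
  have hC0 : 0 ≤ C := Finset.sum_nonneg fun k _ => Finset.sum_nonneg fun a _ => h0 a
  obtain ⟨M, hM⟩ := eventually_atTop.1 (hS.eventually (eventually_gt_atTop (4 * C / η + 1)))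
  refine ⟨M, fun m hm => ?_⟩
  have h1 := hM m hm
  set Sm := ∑ i ∈ Finset.range m, h i with hSm
  have hSpos : 0 < Sm := lt_of_le_of_lt (by positivity) h1
  have h2 : 0 ≤ ∑ i ∈ Finset.range m, A.indicator h i :=
    Finset.sum_nonneg fun i _ => Set.indicator_nonneg (fun i _ => h0 i) i
  rw [Real.dist_eq, sub_zero, abs_of_nonneg (div_nonneg h2 hSpos.le), div_lt_iff₀ hSpos]
  refine lt_of_le_of_lt (hbound K m) ?_
  have h3 : 4 * C < η * Sm := by
    have : 4 * C / η < Sm := by linarith
    rw [div_lt_iff₀ hη] at this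
    linarith
  have h4 : 2 * (1 / 2 : ℝ) ^ K * Sm ≤ η / 2 * Sm :=
    mul_le_mul_of_nonneg_right (by linarith) hSpos.le
  have h5 : 0 < η * Sm := by positivity
  rw [← hC, ← hSm]
  linarith

theorem F_mul {F : ℕ → ℝ} (F0 : F 0 = 0) (Fsub : ∀ m n, F (m + n) ≤ F m + F n) (k m : ℕ) :
    F (k * m) ≤ k * F m := by
  induction k with
  | zero => simp [F0]
  | succ k ih =>
    rw [Nat.succ_mul]
    push_cast
    have := Fsub (k * m) m
    linarith

theorem F_ratio {F : ℕ → ℝ} (F0 : F 0 = 0) (Fpos : ∀ n, 0 < n → 0 < F n) (Fmono : Monotone F)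
    (Fsub : ∀ m n, F (m + n) ≤ F m + F n) {m n : ℕ} (hm : 0 < m) (hmn : m ≤ n) :
    m * F n ≤ 2 * n * F m := by
  have h1 : n ≤ (n / m + 1) * m := by
    have h2 := Nat.div_add_mod n m
    have h3 := Nat.mod_lt n hm
    nlinarith
  have h2 : F n ≤ (n / m + 1 : ℕ) * F m := (Fmono h1).trans (F_mul F0 Fsub _ _)
  have h3 : m * (n / m + 1) ≤ 2 * n := by
    have := Nat.mul_div_le n m
    nlinarith
  have h4 : (m : ℝ) * ((n / m + 1 : ℕ) : ℝ) ≤ 2 * n := by exact_mod_cast h3
  have hmR : (0 : ℝ) < m := by exact_mod_cast hm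
  calc (m : ℝ) * F n ≤ m * ((n / m + 1 : ℕ) * F m) := mul_le_mul_of_nonneg_left h2 hmR.le
    _ = (m * ((n / m + 1 : ℕ) : ℝ)) * F m := by ring
    _ ≤ 2 * n * F m := mul_le_mul_of_nonneg_right h4 (Fpos m hm).le

/-- The new function. -/
noncomputable def newg (F : ℕ → ℝ) (g : ℕ → ℕ) (n : ℕ) : ℕ :=
  (Finset.range (n + 1)).sup fun m => ⌈(m : ℝ) * F (g m) / F m⌉₊

theorem core {h : ℕ → ℝ} (hh : IsEUWeight h) {g : ℕ → ℕ} (hg : g ∈ H)
    {F : ℕ → ℝ} (F0 : F 0 = 0) (Fpos : ∀ n, 0 < n → 0 < F n) (Fmono : Monotone F)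
    (Fsub : ∀ m n, F (m + n) ≤ F m + F n)
    (heq : ∀ A ∈ EU h, Tendsto (fun n => F (cnt A n) / F (g n)) atTop (𝓝 0)) :
    newg F g ∈ H ∧ ∀ A, A ∈ Z (newg F g) ↔
      Tendsto (fun n => F (cnt A n) / F (g n)) atTop (𝓝 0) := by
  obtain ⟨gmono, gtop, gH⟩ := hg
  have hcl := claim hh gtop Fpos Fmono heq
  have Fnn : ∀ n, 0 ≤ F n := fun n => by
    rcases Nat.eq_zero_or_pos n with h | h
    · rw [h, F0]
    · exact (Fpos n h).le
  have gpos : ∀ᶠ n in atTop, 0 < g n := gtop.eventually (eventually_gt_atTop 0)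
  -- bounds for the new function
  have lower : ∀ n : ℕ, (n : ℝ) * F (g n) / F n ≤ newg F g n := by
    intro n
    refine (Nat.le_ceil _).trans ?_
    exact_mod_cast Finset.le_sup (f := fun m : ℕ => ⌈(m : ℝ) * F (g m) / F m⌉₊)
      (Finset.mem_range.2 (Nat.lt_succ_self n))
  have upper : ∀ n : ℕ, 0 < n → (newg F g n : ℝ) ≤ 2 * n * F (g n) / F n + 1 := by
    intro n hn
    have h1 : newg F g n ≤ ⌈2 * (n : ℝ) * F (g n) / F n⌉₊ := by
      refine Finset.sup_le fun m hm => Nat.ceil_le_ceil ?_
      rw [Finset.mem_range] at hm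
      rcases Nat.eq_zero_or_pos m with h0 | hm0
      · subst h0
        rw [Nat.cast_zero, zero_mul, zero_div]
        exact div_nonneg (mul_nonneg (by positivity) (Fnn _)) (Fnn _)
      · have h2 := F_ratio F0 Fpos Fmono Fsub hm0 (show m ≤ n by omega)
        rw [div_le_div_iff₀ (Fpos m hm0) (Fpos n hn)]
        have h3 : F (g m) ≤ F (g n) := Fmono (gmono (by omega))
        calc (m : ℝ) * F (g m) * F n = (m * F n) * F (g m) := by ring
          _ ≤ (2 * n * F m) * F (g m) := mul_le_mul_of_nonneg_right h2 (Fnn _)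
          _ ≤ (2 * n * F m) * F (g n) := mul_le_mul_of_nonneg_left h3
              (mul_nonneg (by positivity) (Fnn _))
          _ = 2 * n * F (g n) * F m := by ring
    have h4 : (newg F g n : ℝ) ≤ ⌈2 * (n : ℝ) * F (g n) / F n⌉₊ := by exact_mod_cast h1
    refine h4.trans ?_
    exact (Nat.ceil_lt_add_one (div_nonneg (mul_nonneg (by positivity) (Fnn _)) (Fnn _))).le
  -- `F n / F (g n)` is bounded
  obtain ⟨C, hC0, hC⟩ : ∃ C : ℝ, 0 < C ∧ ∀ᶠ n in atTop, F n ≤ C * F (g n) := by
    obtain ⟨c, hc, n0, hn0⟩ := hcl 1 one_pos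
    obtain ⟨K, hK⟩ := exists_nat_gt (2 / c)
    have hK0 : 0 < K := by
      have : (0 : ℝ) < K := lt_trans (by positivity) hK
      exact_mod_cast this
    refine ⟨K, by exact_mod_cast hK0, ?_⟩
    -- take `x` about `n / K`
    filter_upwards [eventually_ge_atTop n0, eventually_ge_atTop (2 * K), gpos] with n hn hn2 hgn
    by_contra hcon
    push Not at hcon
    have h1 : n ≤ K * (n / K + 1) := by
      have h2 := Nat.div_add_mod n K
      have h3 := Nat.mod_lt n hK0
      nlinarith
    have h2 : F n ≤ K * F (n / K + 1) := (Fmono h1).trans (F_mul F0 Fsub _ _)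
    have hKR : (0 : ℝ) < K := by exact_mod_cast hK0
    have h3 : 1 * F (g n) ≤ F (n / K + 1) := by
      rw [one_mul]
      have : (K : ℝ) * F (g n) < K * F (n / K + 1) := lt_of_lt_of_le hcon h2
      exact (lt_of_mul_lt_mul_left this hKR.le).le
    by_cases hKn : n / K + 1 ≤ n
    · have h4 := hn0 n hn _ hKn h3
      have h5 : n / K + 1 ≤ 2 * (n / K) := by
        have : 2 ≤ n / K := (Nat.le_div_iff_mul_le hK0).2 hn2
        omega
      have h6 : K * (n / K) ≤ n := Nat.mul_div_le n K
      have h7 : ((n / K + 1 : ℕ) : ℝ) * K ≤ 2 * n := by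
        have : (n / K + 1) * K ≤ 2 * n := by nlinarith
        exact_mod_cast this
      have hn1 : (0 : ℝ) < n := by
        have : 0 < n := by omega
        exact_mod_cast this
      have h8 : c * n * K ≤ 2 * n := (mul_le_mul_of_nonneg_right h4 hKR.le).trans h7
      have h9 : c * K ≤ 2 := by
        have : (c * K) * n ≤ 2 * n := by linarith
        exact le_of_mul_le_mul_right this hn1
      rw [div_lt_iff₀ hc] at hK
      linarith
    · have h10 : n / K = n := le_antisymm (Nat.div_le_self n K) (by omega)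
      have h6 : K * (n / K) ≤ n := Nat.mul_div_le n K
      rw [h10] at h6
      have hK1 : K = 1 := by
        by_contra hne
        have : 2 ≤ K := by omega
        have hn' : 0 < n := by omega
        nlinarith
      subst hK1
      have h4 := hn0 n hn n (le_refl _) (by
        rw [one_mul]
        rw [Nat.cast_one, one_mul] at hcon
        exact hcon.le)
      have hn1 : (0 : ℝ) < n := by
        have : 0 < n := by omega
        exact_mod_cast this
      have h5 : c ≤ 1 := by
        have : c * n ≤ 1 * n := by linarith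
        exact le_of_mul_le_mul_right this hn1
      rw [Nat.cast_one, div_lt_iff₀ hc] at hK
      linarith
  constructor
  · refine ⟨?_, ?_, ?_⟩
    · intro a b hab
      exact Finset.sup_mono (Finset.range_subset_range.2 (by omega))
    · -- tends to infinity
      have h1 : Tendsto (fun n : ℕ => (n : ℝ) / C) atTop atTop :=
        tendsto_natCast_atTop_atTop.atTop_div_const hC0
      have h2 : Tendsto (fun n : ℕ => (newg F g n : ℝ)) atTop atTop := by
        refine tendsto_atTop_mono' _ ?_ h1
        filter_upwards [hC, gpos, eventually_gt_atTop 0] with n hn hgn hn0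
        refine le_trans ?_ (lower n)
        rw [div_le_div_iff₀ hC0 (Fpos n hn0)]
        have hnR : (0 : ℝ) ≤ n := by positivity
        calc (n : ℝ) * F n ≤ n * (C * F (g n)) := mul_le_mul_of_nonneg_left hn hnR
          _ = n * F (g n) * C := by ring
      exact tendsto_natCast_atTop_iff.1 h2
    · intro ht
      apply gH
      -- first `F n / F (g n) → 0`
      have h1 : ∀ᶠ n : ℕ in atTop, F n / F (g n) ≤ (2 + C) * ((n : ℝ) / newg F g n) := by
        filter_upwards [hC, gpos, eventually_gt_atTop 0] with n hn hgn hn0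
        have hFg := Fpos _ hgn
        have hFn := Fpos _ hn0
        have hnR : (0 : ℝ) < n := by exact_mod_cast hn0
        have hn1 : (1 : ℝ) ≤ n := by exact_mod_cast hn0
        have hlow := lower n
        have hg0 : 0 < (newg F g n : ℝ) := lt_of_lt_of_le (by positivity) hlow
        have hup := upper n hn0
        rw [← mul_div_assoc, div_le_div_iff₀ hFg hg0]
        calc F n * (newg F g n : ℝ) ≤ F n * (2 * n * F (g n) / F n + 1) :=
              mul_le_mul_of_nonneg_left hup hFn.le
          _ = 2 * n * F (g n) + F n := by field_simp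
          _ ≤ 2 * n * F (g n) + C * F (g n) := by linarith
          _ ≤ 2 * n * F (g n) + n * (C * F (g n)) := by
              have : C * F (g n) ≤ n * (C * F (g n)) := by nlinarith [mul_pos hC0 hFg]
              linarith
          _ = (2 + C) * n * F (g n) := by ring
      have h2 : Tendsto (fun n : ℕ => F n / F (g n)) atTop (𝓝 0) := by
        have h3 : Tendsto (fun n : ℕ => (2 + C) * ((n : ℝ) / newg F g n)) atTop (𝓝 0) := by
          have := ht.const_mul (2 + C)
          rwa [mul_zero] at this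
        refine squeeze_zero' (Eventually.of_forall fun n => div_nonneg (Fnn _) (Fnn _)) h1 h3
      have h3 : ∀ᶠ n in atTop, F n / F (g n) < 1 := h2.eventually (gt_mem_nhds one_pos)
      have h4 : Tendsto (fun n : ℕ => 2 * (F n / F (g n))) atTop (𝓝 0) := by
        have := h2.const_mul 2
        rwa [mul_zero] at this
      refine squeeze_zero' (Eventually.of_forall fun n => by positivity) ?_ h4
      filter_upwards [h3, gpos, eventually_gt_atTop 0] with n hn hgn hn0
      have hFg := Fpos _ hgn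
      rw [div_lt_one hFg] at hn
      have hng : n ≤ g n := by
        by_contra hcon
        push Not at hcon
        have := Fmono hcon.le
        linarith
      have h5 := F_ratio F0 Fpos Fmono Fsub hn0 hng
      have hgR : (0 : ℝ) < g n := by exact_mod_cast hgn
      rw [← mul_div_assoc, div_le_div_iff₀ hgR hFg]
      linarith
  · intro A
    constructor
    · intro hA
      have hA' : Tendsto (fun n => (cnt A n : ℝ) / (newg F g n : ℝ)) atTop (𝓝 0) := hA
      rw [Metric.tendsto_atTop]
      intro ε hε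
      obtain ⟨c, hc, n0, hn0⟩ := hcl ε hε
      have h1 : ∀ᶠ n in atTop, (cnt A n : ℝ) / (newg F g n : ℝ) < c / (2 / ε + 1) :=
        hA'.eventually (gt_mem_nhds (by positivity))
      obtain ⟨M, hM⟩ := eventually_atTop.1
        (((h1.and gpos).and (eventually_ge_atTop n0)).and (eventually_gt_atTop 0))
      refine ⟨M, fun n hn => ?_⟩
      obtain ⟨⟨⟨h2, hgn⟩, hnn0⟩, hnpos⟩ := hM n hn
      have hFg := Fpos _ hgn
      rw [Real.dist_eq, sub_zero, abs_of_nonneg (div_nonneg (Fnn _) hFg.le), div_lt_iff₀ hFg]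
      by_contra hcon
      push Not at hcon
      have h3 := hn0 n hnn0 _ (cnt_le A n) hcon
      have hFn : F (cnt A n) ≤ F n := Fmono (cnt_le A n)
      have hFnpos := Fpos n hnpos
      have hnR : (0 : ℝ) < n := by exact_mod_cast hnpos
      have hn1 : (1 : ℝ) ≤ n := by exact_mod_cast hnpos
      have hup := upper n hnpos
      have hup2 : (newg F g n : ℝ) ≤ (2 / ε + 1) * n := by
        have h4 : 2 * n * F (g n) / F n ≤ 2 / ε * n := by
          rw [div_mul_eq_mul_div, div_le_div_iff₀ hFnpos hε]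
          have h5 : ε * F (g n) ≤ F n := hcon.trans hFn
          nlinarith
        linarith
      have hg0 : 0 < (newg F g n : ℝ) := lt_of_lt_of_le (by positivity) (lower n)
      rw [div_lt_div_iff₀ hg0 (by positivity)] at h2
      have h6 : c * (newg F g n : ℝ) ≤ (cnt A n : ℝ) * (2 / ε + 1) := by
        calc c * (newg F g n : ℝ) ≤ c * ((2 / ε + 1) * n) := mul_le_mul_of_nonneg_left hup2 hc.le
          _ = (c * n) * (2 / ε + 1) := by ring
          _ ≤ (cnt A n : ℝ) * (2 / ε + 1) := mul_le_mul_of_nonneg_right h3 (by positivity)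
      linarith
    · intro hA
      show Tendsto (fun n => (cnt A n : ℝ) / (newg F g n : ℝ)) atTop (𝓝 0)
      have h4 : Tendsto (fun n : ℕ => 2 * (F (cnt A n) / F (g n))) atTop (𝓝 0) := by
        have := hA.const_mul 2
        rwa [mul_zero] at this
      refine squeeze_zero' (Eventually.of_forall fun n => by positivity) ?_ h4
      filter_upwards [gpos, eventually_gt_atTop 0] with n hgn hnpos
      have hFg := Fpos _ hgn
      have hFnpos := Fpos n hnpos
      have hnR : (0 : ℝ) < n := by exact_mod_cast hnpos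
      have hg0 : 0 < (newg F g n : ℝ) := lt_of_lt_of_le (by positivity) (lower n)
      rcases Nat.eq_zero_or_pos (cnt A n) with h0 | hpos
      · rw [h0, Nat.cast_zero, zero_div]
        exact mul_nonneg (by norm_num) (div_nonneg (Fnn _) hFg.le)
      · have h5 := F_ratio F0 Fpos Fmono Fsub hpos (cnt_le A n)
        rw [← mul_div_assoc, div_le_div_iff₀ hg0 hFg]
        have h6 := lower n
        rw [div_le_iff₀ hFnpos] at h6
        have h7 : 0 ≤ F (cnt A n) := Fnn _
        -- `cnt * F (g n) ≤ 2 * F cnt * newg`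
        have h8 : (n : ℝ) * ((cnt A n : ℝ) * F (g n)) ≤ n * (2 * F (cnt A n) * newg F g n) := by
          calc (n : ℝ) * ((cnt A n : ℝ) * F (g n)) = (cnt A n : ℝ) * (n * F (g n)) := by ring
            _ ≤ (cnt A n : ℝ) * (newg F g n * F n) :=
                mul_le_mul_of_nonneg_left h6 (by positivity)
            _ = newg F g n * (cnt A n * F n) := by ring
            _ ≤ newg F g n * (2 * n * F (cnt A n)) := mul_le_mul_of_nonneg_left h5 hg0.le
            _ = n * (2 * F (cnt A n) * newg F g n) := by ring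
        exact le_of_mul_le_mul_left h8 hnR

/-- Every Erdős–Ulam ideal of the form `Z_g(f)`, with `g ∈ H` and `f` an unbounded modulus function,
is a simple density ideal. -/
theorem result : ∀ h : ℕ → ℝ, IsEUWeight h → ∀ g ∈ H, ∀ f : ℝ≥0 → ℝ≥0, IsModulus f →
    (∀ C, ∃ x, C < f x) → EU h = Zf g f → ∃ g' ∈ H, EU h = Z g' := by
  intro h hh g hg f hf _ heq
  set F : ℕ → ℝ := fun n => ((f (n : ℝ≥0) : ℝ≥0) : ℝ) with hF
  have F0 : F 0 = 0 := by
    show ((f ((0 : ℕ) : ℝ≥0) : ℝ≥0) : ℝ) = 0
    rw [Nat.cast_zero, (hf.zero_iff 0).2 rfl, NNReal.coe_zero]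
  have Fpos : ∀ n, 0 < n → 0 < F n := by
    intro n hn
    have h1 : f (n : ℝ≥0) ≠ 0 := fun h0 => by
      have := (hf.zero_iff _).1 h0
      rw [Nat.cast_eq_zero] at this
      omega
    exact NNReal.coe_pos.2 (pos_iff_ne_zero.2 h1)
  have Fmono : Monotone F := fun a b hab => NNReal.coe_le_coe.2 (hf.mono (Nat.cast_le.2 hab))
  have Fsub : ∀ m n, F (m + n) ≤ F m + F n := by
    intro m n
    show ((f ((m + n : ℕ) : ℝ≥0) : ℝ≥0) : ℝ) ≤ _
    rw [Nat.cast_add, ← NNReal.coe_add]
    exact NNReal.coe_le_coe.2 (hf.subadd _ _)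
  have hcore := core hh hg F0 Fpos Fmono Fsub (fun A hA => by
    rw [heq] at hA
    exact hA)
  refine ⟨newg F g, hcore.1, ?_⟩
  rw [heq]
  ext A
  exact (hcore.2 A).symm

end Pool.Agent.Results.MP_54d8ad_lc.AllSimple
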